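import Pool.Agent.D0H28.OV.Defs
import Pool.Agent.Q95.AXP.Yd
import Pool.Agent.Q285.AXI.Yi

/-!
Project OV (helper28), package C0, by helper33.
-/

set_option autoImplicit false

open MeasureTheory Set Metric Filter Topology
open scoped ContDiff
open H459R3.NS Pool.Agent.W268.NS Pool.Agent.Q67.VD

namespace Pool.Agent.D0H33.OV

open Pool.Agent.Q85.CC Pool.Agent.Q85.CL Pool.Agent.TH305.AX Pool.Agent.Q67.AXI
open Pool.Agent.Q285.AXI (slice)
open Pool.Agent.D0H28.OV

theorem c0 (hAlg : StmAlg) (hBar : Pool.Agent.Q67.AXI.StmBar) : StmC0 := by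
  intro T E c R H r h T₁ K u p hA hr hrR hh hhH hT₁ hT₁T hb
  have hI1 : T₁ ∈ Ioo 0 T := ⟨hT₁, hT₁T⟩
  have hs1 := slice hA.smooth_u hI1
  have hcc : IsCompact (Cy c r h) := Pool.Agent.Q95.AXP.cy_compact c hr
  obtain ⟨M₁, hM₁⟩ := hcc.exists_bound_of_continuousOn (sm_circ hs1).continuous.continuousOn
  obtain ⟨C₁, hC₁⟩ : ∃ C₁ : ℝ, C₁ = 1 + r ^ 2 * |K| + |M₁| := ⟨_, rfl⟩
  have a1 : 0 ≤ r ^ 2 * |K| := by positivity
  have a2 := abs_nonneg M₁
  have hC1 : 1 ≤ C₁ := by rw [hC₁]; linarith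
  have key := hBar T E c R H r h T₁ T u p (fun t _ => C₁ + (t - T₁)) (fun _ _ => 1)
    (fun _ _ => 0) (fun _ _ => 0) hA hr hrR hh hhH hT₁ hT₁T le_rfl
    (by fun_prop)
    (fun t _ s _ => ⟨by simpa using ((hasDerivAt_id t).sub_const T₁).const_add C₁,
      hasDerivAt_const _ _, hasDerivAt_const _ _⟩)
    (fun t _ => contDiffOn_const)
    (fun t ht s _ => by
      have := ht.1
      linarith)
    (fun T' _ A => ⟨1 / (|A| + 1), by positivity, fun t ht s hs hsd => by
      have h3 : A * s ≤ 1 := by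
        rw [lt_div_iff₀ (by positivity)] at hsd
        have := hs.1
        nlinarith [le_abs_self A]
      have := ht.1
      linarith⟩)
    (fun t ht x hx _ hbd => by
      have h3 := hb t ht x hx hbd
      have ht0 : t ∈ Ioo 0 T := ⟨hT₁.trans_le ht.1, ht.2⟩
      obtain ⟨-, -, -, halg⟩ := hAlg (u t) (slice hA.smooth_u ht0) (hA.axi t ht0)
      rw [(halg x).2.2.2.2.2.2.2.2.1, abs_mul, abs_of_nonneg (sg_nonneg x)]
      have h5 : sg x * |WW (u t) x| ≤ r ^ 2 * |K| :=
        mul_le_mul hx.1 (h3.trans (le_abs_self K)) (abs_nonneg _) (sq_nonneg r)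
      have := ht.1
      linarith)
    (fun x hx _ => by
      have h3 := hM₁ x hx
      rw [Real.norm_eq_abs] at h3
      have := le_abs_self M₁
      linarith)
    (fun t ht x hx hs σ _ _ _ _ _ => by simp)
  refine ⟨C₁ + (T - T₁), by linarith, fun t ht x hx => ?_⟩
  rcases (sg_nonneg x).eq_or_lt with h0 | h0
  · have h3 : circ (u t) x = 0 := by
      have e : x 0 ^ 2 + x 1 ^ 2 = 0 := h0.symm
      have e0 : x 0 = 0 := by nlinarith [sq_nonneg (x 0), sq_nonneg (x 1)]
      have e1 : x 1 = 0 := by nlinarith [sq_nonneg (x 0), sq_nonneg (x 1)]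
      unfold circ
      rw [e0, e1]
      ring
    rw [h3, abs_zero]
    linarith
  · have h3 := key t ht x hx h0
    have := ht.2
    linarith

end Pool.Agent.D0H33.OV
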