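import Pool.Agent.D0H28.OV.Defs
import Pool.Agent.Q285.AXI.Yi

/-!
Project OV (helper28), package H: the decay of the circulation near the axis, by iteration of the
oscillation lemma over the scales; by helper33.
-/

set_option autoImplicit false

open MeasureTheory Set Metric Filter Topology
open scoped ContDiff
open H459R3.NS Pool.Agent.W268.NS Pool.Agent.Q67.VD

namespace Pool.Agent.D0H33.OV

open Pool.Agent.Q85.CC Pool.Agent.Q85.CL Pool.Agent.TH305.AX Pool.Agent.Q67.AXI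
open Pool.Agent.Q285.AXI (slice)
open Pool.Agent.D0H28.OV (FF TT Dr StmFF StmOsc)

/-! ### Scaling -/

/-- The affine map. -/
def aff (c' s : ℝ) (y : V) : V := ![s * y 0, s * y 1, c' + s * y 2]

lemma aff_eq (c' s : ℝ) (y : V) : aff c' s y = (![0, 0, c'] : V) + s • y := by
  funext i
  fin_cases i
  · show s * y 0 = 0 + s * y 0
    rw [zero_add]
  · show s * y 1 = 0 + s * y 1
    rw [zero_add]
  · rfl

lemma sg_aff (c' s : ℝ) (y : V) : sg (aff c' s y) = s ^ 2 * sg y := by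
  unfold sg aff
  simp
  ring

lemma aff_Cy {c' s r h : ℝ} (hs : 0 < s) {y : V} (hy : y ∈ Cy 0 r h) :
    aff c' s y ∈ Cy c' (s * r) (s * h) := by
  refine ⟨?_, ?_⟩
  · rw [sg_aff, mul_pow]
    exact mul_le_mul_of_nonneg_left hy.1 (sq_nonneg s)
  · show |c' + s * y 2 - c'| ≤ s * h
    have h1 := hy.2
    rw [sub_zero] at h1
    rw [add_sub_cancel_left, abs_mul, abs_of_pos hs]
    exact mul_le_mul_of_nonneg_left h1 hs.le

lemma aff_Co {c' s r h : ℝ} (hs : 0 < s) {y : V} (hy : y ∈ Co 0 r h) :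
    aff c' s y ∈ Co c' (s * r) (s * h) := by
  refine ⟨?_, ?_⟩
  · rw [sg_aff, mul_pow]
    exact mul_lt_mul_of_pos_left hy.1 (by positivity)
  · show |c' + s * y 2 - c'| < s * h
    have h1 := hy.2
    rw [sub_zero] at h1
    rw [add_sub_cancel_left, abs_mul, abs_of_pos hs]
    exact mul_lt_mul_of_pos_left h1 hs

lemma aff_sm (c' s : ℝ) : ContDiff ℝ ∞ (aff c' s) := by
  have e : aff c' s = fun y => (![0, 0, c'] : V) + s • y := funext (aff_eq c' s)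
  rw [e]
  exact contDiff_const.add (contDiff_id.const_smul s)

lemma pd_aff {G : V → ℝ} (hG : ContDiff ℝ ∞ G) (c' s : ℝ) (j : Fin 3) :
    pd j (fun y => G (aff c' s y)) = fun y => s * pd j G (aff c' s y) := by
  funext y
  have h1 : HasFDerivAt G (fderiv ℝ G (aff c' s y)) (aff c' s y) :=
    (hG.differentiable (by simp) _).hasFDerivAt
  have h2 : HasFDerivAt (aff c' s) (s • ContinuousLinearMap.id ℝ V) y := by
    have e : aff c' s = fun y => (![0, 0, c'] : V) + s • y := funext (aff_eq c' s)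
    rw [e]
    exact ((hasFDerivAt_id y).const_smul s).const_add _
  have h3 := (h1.comp y h2).fderiv
  unfold pd
  have h4 : fderiv ℝ (fun y => G (aff c' s y)) y
      = (fderiv ℝ G (aff c' s y)).comp (s • ContinuousLinearMap.id ℝ V) := h3
  rw [h4]
  simp

lemma pd_cmul {G : V → ℝ} (hG : ContDiff ℝ ∞ G) (c : ℝ) (j : Fin 3) :
    pd j (fun y => c * G y) = fun y => c * pd j G y := by
  funext y
  unfold pd
  rw [fderiv_const_mul ((hG.differentiable (by simp)) y)]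
  rfl

lemma lap_aff {G : V → ℝ} (hG : ContDiff ℝ ∞ G) (c' s : ℝ) (y : V) :
    lap (fun y => G (aff c' s y)) y = s ^ 2 * lap G (aff c' s y) := by
  unfold lap
  rw [Finset.mul_sum]
  refine Finset.sum_congr rfl fun j _ => ?_
  rw [pd_aff hG]
  have h1 : ContDiff ℝ ∞ (pd j G) := Pool.Agent.W583.MD.sm_pd hG j
  have h2 : ContDiff ℝ ∞ (fun y => pd j G (aff c' s y)) := h1.comp (aff_sm c' s)
  rw [pd_cmul h2, pd_aff h1]
  ring

lemma lap_cmul {G : V → ℝ} (hG : ContDiff ℝ ∞ G) (c : ℝ) (y : V) :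
    lap (fun y => c * G y) y = c * lap G y := by
  unfold lap
  rw [Finset.mul_sum]
  refine Finset.sum_congr rfl fun j _ => ?_
  rw [pd_cmul hG, pd_cmul (Pool.Agent.W583.MD.sm_pd hG j)]

lemma RR_aff {G : V → ℝ} (hG : ContDiff ℝ ∞ G) (c' s : ℝ) (y : V) :
    RR (fun y => G (aff c' s y)) y = RR G (aff c' s y) := by
  unfold RR
  rw [pd_aff hG, pd_aff hG]
  have e0 : aff c' s y 0 = s * y 0 := rfl
  have e1 : aff c' s y 1 = s * y 1 := rfl
  rw [e0, e1]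
  ring

lemma RR_cmul {G : V → ℝ} (hG : ContDiff ℝ ∞ G) (c : ℝ) (y : V) :
    RR (fun y => c * G y) y = c * RR G y := by
  unfold RR
  rw [pd_cmul hG, pd_cmul hG]
  ring

lemma pd_ev {f g : V → ℝ} {x : V} (h : f =ᶠ[𝓝 x] g) (j : Fin 3) : pd j f x = pd j g x := by
  unfold pd
  rw [h.fderiv_eq]

lemma lap_ev {f g : V → ℝ} {x : V} (h : f =ᶠ[𝓝 x] g) : lap f x = lap g x := by
  unfold lap
  refine Finset.sum_congr rfl fun j _ => pd_ev ?_ j
  filter_upwards [h.eventuallyEq_nhds] with y hy using pd_ev hy j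

lemma RR_ev {f g : V → ℝ} {x : V} (h : f =ᶠ[𝓝 x] g) : RR f x = RR g x := by
  unfold RR
  rw [pd_ev h, pd_ev h]

/-- The transport term. -/
lemma adv_TT (hAlg : StmAlg) (hFF : StmFF) {c R H : ℝ} {v : V → V} (hv : ContDiff ℝ ∞ v)
    (hax : Axi v) (hdf : DFO (Co c R H) v) {x : V} (hx : x ∈ Co c R H) :
    W221.NS.adv v (circ v) x = TT (FF v) (circ v) x := by
  obtain ⟨-, -, -, hA⟩ := hAlg v hv hax
  obtain ⟨a1, a2, -, -, -, -, -, -, -, -, ⟨a3, a4, -, -⟩, -⟩ := hA x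
  have h2 := (hFF.1 v hv hax).2.2 x
  have h3 := (hFF.2.1 c R H v hv hax hdf x hx).1
  unfold W221.NS.adv TT
  rw [Fin.sum_univ_three, a1, a2, h3, h2]
  unfold RR
  rw [a3, a4]
  ring

lemma Co_isOpen (c r h : ℝ) : IsOpen (Co c r h) := by
  have hsgc : Continuous sg := by
    unfold sg
    fun_prop
  have k1 : IsOpen {x : V | sg x < r ^ 2} := isOpen_lt hsgc continuous_const
  have k2 : IsOpen {x : V | |x 2 - c| < h} := isOpen_lt (by fun_prop) continuous_const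
  exact k1.inter k2

/-- Change of variables. -/
lemma int_aff (G : V → ℝ) {c' s : ℝ} (hs : 0 < s) :
    ∫ y in Co 0 1 1, G (aff c' s y) = (s ^ 3)⁻¹ * ∫ x in Co c' s s, G x := by
  have h1 : ∀ y : V, (Co 0 1 1).indicator (fun y => G (aff c' s y)) y
      = (Co c' s s).indicator G ((![0, 0, c'] : V) + s • y) := by
    intro y
    rw [← aff_eq]
    by_cases hy : y ∈ Co 0 1 1
    · have h2 := aff_Co (c' := c') hs hy
      rw [mul_one] at h2
      rw [indicator_of_mem hy, indicator_of_mem h2]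
    · have h2 : aff c' s y ∉ Co c' s s := by
        intro h3
        apply hy
        refine ⟨?_, ?_⟩
        · have h4 := h3.1
          rw [sg_aff] at h4
          have hs2 : 0 < s ^ 2 := by positivity
          nlinarith
        · have h4 : |c' + s * y 2 - c'| < s := h3.2
          rw [add_sub_cancel_left, abs_mul, abs_of_pos hs] at h4
          rw [sub_zero]
          nlinarith
      rw [indicator_of_notMem hy, indicator_of_notMem h2]
  rw [← integral_indicator (Co_isOpen 0 1 1).measurableSet,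
    ← integral_indicator (Co_isOpen c' s s).measurableSet]
  simp only [h1]
  have h3 := Measure.integral_comp_smul (volume : Measure V)
    (fun x => (Co c' s s).indicator G ((![0, 0, c'] : V) + x)) s
  rw [h3, integral_add_left_eq_self (fun x => (Co c' s s).indicator G x)]
  simp only [Module.finrank_fin_fun, smul_eq_mul]
  rw [abs_of_pos (by positivity)]

/-- The rescaled solution. -/
lemma mk_Dr (hAlg : StmAlg) (hFF : StmFF) (hEqC : Pool.Agent.Q67.AXI.StmEqC)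
    {T E c R H K A s c' t₀ a b : ℝ} {u : ℝ → V → V} {p : ℝ → V → ℝ} {χ : V → ℝ}
    (hA : AxL T E c R H u p) (hs : 0 < s) (hA0 : 0 < A) (hχ : ContDiff ℝ ∞ χ) (hχa : AxF χ)
    (hχ0 : ∀ x, 0 ≤ χ x) (hχ1 : ∀ x, χ x ≤ 1) (hχo : ∀ x ∈ Co 0 1 1, χ x = 1)
    (hχs : ∀ x, χ x ≠ 0 → x ∈ Co 0 2 2) (hsub : Co c' s s ⊆ Co c R H)
    (hI : ∀ τ ∈ Ioo a b, t₀ + s ^ 2 * τ ∈ Ioo 0 T)
    (hbd : ∀ τ ∈ Ioo a b, ∀ x ∈ Cy c' (2 * s) (2 * s), |circ (u (t₀ + s ^ 2 * τ)) x| ≤ A)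
    (hmor : ∀ τ ∈ Ioo a b,
      ∫ x in Co c' s s, sg x ^ 3 * FF (u (t₀ + s ^ 2 * τ)) x ^ 6 ≤ K * s ^ 3) :
    Dr a b K (fun τ y => χ y * (A⁻¹ * circ (u (t₀ + s ^ 2 * τ)) (aff c' s y)))
      (fun τ y => s * FF (u (t₀ + s ^ 2 * τ)) (aff c' s y)) := by
  have hmap : MapsTo (fun z : ℝ × V => (t₀ + s ^ 2 * z.1, aff c' s z.2)) (Ioo a b ×ˢ univ)
      (Ioo 0 T ×ˢ univ) := fun z hz => ⟨hI z.1 hz.1, mem_univ _⟩
  have hms : ContDiffOn ℝ ∞ (fun z : ℝ × V => (t₀ + s ^ 2 * z.1, aff c' s z.2))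
      (Ioo a b ×ˢ univ) :=
    ((contDiff_const.add (contDiff_const.mul contDiff_fst)).prodMk
      ((aff_sm c' s).comp contDiff_snd)).contDiffOn
  have hus : ∀ τ ∈ Ioo a b, ContDiff ℝ ∞ (u (t₀ + s ^ 2 * τ)) := fun τ hτ =>
    slice hA.smooth_u (hI τ hτ)
  have hcs : ContDiffOn ℝ ∞ (fun z : ℝ × V => circ (u z.1) z.2) (Ioo 0 T ×ˢ univ) := by
    have h0 : ∀ i, ContDiffOn ℝ ∞ (fun z : ℝ × V => u z.1 z.2 i) (Ioo 0 T ×ˢ univ) :=
      contDiffOn_pi.1 hA.smooth_u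
    have h1 : ∀ i : Fin 3, ContDiffOn ℝ ∞ (fun z : ℝ × V => z.2 i) (Ioo 0 T ×ˢ univ) := fun i =>
      ((sm_crd i).comp contDiff_snd).contDiffOn
    exact ((h1 0).mul (h0 1)).sub ((h1 1).mul (h0 0))
  have hrot : ∀ (θ : ℝ) (y : V), aff c' s (rot θ y) = rot θ (aff c' s y) := by
    intro θ y
    funext i
    fin_cases i
    · show s * (Real.cos θ * y 0 - Real.sin θ * y 1) = Real.cos θ * (s * y 0) - Real.sin θ * (s * y 1)
      ring
    · show s * (Real.sin θ * y 0 + Real.cos θ * y 1) = Real.sin θ * (s * y 0) + Real.cos θ * (s * y 1)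
      ring
    · rfl
  refine
    { smf := ?_
      smF := ?_
      axf := ?_
      axF := ?_
      ax0 := ?_
      bd := ?_
      eq := ?_
      mor := ?_ }
  · have h1 : ContDiffOn ℝ ∞ (fun z : ℝ × V => χ z.2) (Ioo a b ×ˢ univ) :=
      (hχ.comp contDiff_snd).contDiffOn
    exact h1.mul (contDiffOn_const.mul (hcs.comp hms hmap))
  · exact contDiffOn_const.mul ((hFF.2.2.1 T u hA.smooth_u).comp hms hmap)
  · intro τ hτ θ y
    show χ (rot θ y) * (A⁻¹ * circ (u (t₀ + s ^ 2 * τ)) (aff c' s (rot θ y)))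
      = χ y * (A⁻¹ * circ (u (t₀ + s ^ 2 * τ)) (aff c' s y))
    obtain ⟨-, ⟨-, aW, -, -⟩, -, halg⟩ := hAlg _ (hus τ hτ) (hA.axi _ (hI τ hτ))
    rw [hχa θ y, hrot, (halg _).2.2.2.2.2.2.2.2.1, (halg (aff c' s y)).2.2.2.2.2.2.2.2.1,
      sg_rot, aW θ _]
  · intro τ hτ θ y
    show s * FF (u (t₀ + s ^ 2 * τ)) (aff c' s (rot θ y))
      = s * FF (u (t₀ + s ^ 2 * τ)) (aff c' s y)
    rw [hrot, (hFF.1 _ (hus τ hτ) (hA.axi _ (hI τ hτ))).2.1 θ _]
  · intro τ hτ y hy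
    obtain ⟨-, -, -, halg⟩ := hAlg _ (hus τ hτ) (hA.axi _ (hI τ hτ))
    show χ y * (A⁻¹ * circ (u (t₀ + s ^ 2 * τ)) (aff c' s y)) = 0
    rw [(halg (aff c' s y)).2.2.2.2.2.2.2.2.1, sg_aff, hy]
    ring
  · intro τ hτ y
    show |χ y * (A⁻¹ * circ (u (t₀ + s ^ 2 * τ)) (aff c' s y))| ≤ 1
    by_cases h0 : χ y = 0
    · rw [h0, zero_mul, abs_zero]
      exact zero_le_one
    · have h1 := hχs y h0
      have h2 := hbd τ hτ _ (by
        have h3 := aff_Cy (c' := c') hs (y := y) (r := 2) (h := 2) ⟨h1.1.le, h1.2.le⟩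
        rw [mul_comm 2 s]
        exact h3)
      rw [abs_mul, abs_mul, abs_of_nonneg (hχ0 y), abs_of_pos (inv_pos.2 hA0)]
      calc χ y * (A⁻¹ * |circ (u (t₀ + s ^ 2 * τ)) (aff c' s y)|) ≤ 1 * (A⁻¹ * A) := by
            refine mul_le_mul (hχ1 y) ?_ (by positivity) zero_le_one
            exact mul_le_mul_of_nonneg_left h2 (inv_pos.2 hA0).le
        _ = 1 := by rw [inv_mul_cancel₀ hA0.ne', mul_one]
  · intro τ hτ y hy hy0
    have hx : aff c' s y ∈ Co c R H := by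
      have h1 := aff_Co (c' := c') hs hy
      rw [mul_one] at h1
      exact hsub h1
    have hx0 : sg (aff c' s y) ≠ 0 := by
      rw [sg_aff]
      exact mul_ne_zero (by positivity) hy0
    have ht := hI τ hτ
    have hu := hus τ hτ
    have hax := hA.axi _ ht
    have hsc : ContDiff ℝ ∞ (circ (u (t₀ + s ^ 2 * τ))) := sm_circ hu
    have hsF : ContDiff ℝ ∞ (FF (u (t₀ + s ^ 2 * τ))) := (hFF.1 _ hu hax).1
    have hsG : ContDiff ℝ ∞ (fun y => circ (u (t₀ + s ^ 2 * τ)) (aff c' s y)) :=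
      hsc.comp (aff_sm c' s)
    have hsFs : ContDiff ℝ ∞ (fun y => FF (u (t₀ + s ^ 2 * τ)) (aff c' s y)) :=
      hsF.comp (aff_sm c' s)
    have hE := hEqC T E c R H u p hA _ ht (aff c' s y) hx hx0
    rw [adv_TT hAlg hFF hu hax (hA.divfree _ ht) hx] at hE
    -- the derivative in time
    have h1 : HasDerivAt (fun σ : ℝ => t₀ + s ^ 2 * σ) (s ^ 2) τ := by
      simpa using ((hasDerivAt_id τ).const_mul (s ^ 2)).const_add t₀
    obtain ⟨E', hE'⟩ : ∃ E' : ℝ, E' = lap (circ (u (t₀ + s ^ 2 * τ))) (aff c' s y)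
        - 2 / sg (aff c' s y) * RR (circ (u (t₀ + s ^ 2 * τ))) (aff c' s y)
        - TT (FF (u (t₀ + s ^ 2 * τ))) (circ (u (t₀ + s ^ 2 * τ))) (aff c' s y) := ⟨_, rfl⟩
    rw [← hE'] at hE
    have h2 : HasDerivAt (fun σ => circ (u (t₀ + s ^ 2 * σ)) (aff c' s y)) (E' * s ^ 2) τ :=
      HasDerivAt.comp (h₂ := fun t => circ (u t) (aff c' s y)) τ hE h1
    have h3 := ((h2.const_mul A⁻¹).const_mul (χ y)).deriv
    rw [hE'] at h3
    have hev : (fun y => χ y * (A⁻¹ * circ (u (t₀ + s ^ 2 * τ)) (aff c' s y)))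
        =ᶠ[𝓝 y] fun y => A⁻¹ * circ (u (t₀ + s ^ 2 * τ)) (aff c' s y) := by
      filter_upwards [(Co_isOpen 0 1 1).mem_nhds hy] with z hz
      rw [hχo z hz, one_mul]
    have e1 : pd 2 (fun y => s * FF (u (t₀ + s ^ 2 * τ)) (aff c' s y)) y
        = s * (s * pd 2 (FF (u (t₀ + s ^ 2 * τ))) (aff c' s y)) := by
      rw [pd_cmul hsFs, pd_aff hsF]
    have e2 : RR (fun y => s * FF (u (t₀ + s ^ 2 * τ)) (aff c' s y)) y
        = s * RR (FF (u (t₀ + s ^ 2 * τ))) (aff c' s y) := by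
      rw [RR_cmul hsFs, RR_aff hsF]
    show deriv (fun σ => χ y * (A⁻¹ * circ (u (t₀ + s ^ 2 * σ)) (aff c' s y))) τ = _
    rw [h3, hχo y hy, lap_ev hev, RR_ev hev]
    unfold TT
    rw [RR_ev hev, pd_ev hev, lap_cmul hsG, RR_cmul hsG, pd_cmul hsG, lap_aff hsc, RR_aff hsc,
      pd_aff hsc, e1, e2, sg_aff]
    have hs2 : s ^ 2 ≠ 0 := by positivity
    field_simp
  · intro τ hτ
    have h1 : ∀ y : V, sg y ^ 3 * (s * FF (u (t₀ + s ^ 2 * τ)) (aff c' s y)) ^ 6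
        = (fun x => sg x ^ 3 * FF (u (t₀ + s ^ 2 * τ)) x ^ 6) (aff c' s y) := by
      intro y
      simp only
      rw [sg_aff]
      ring
    simp only [h1]
    rw [int_aff (fun x => sg x ^ 3 * FF (u (t₀ + s ^ 2 * τ)) x ^ 6) hs]
    rw [inv_mul_le_iff₀ (by positivity)]
    have := hmor τ hτ
    linarith

lemma first_scale {L T T₁ r h s₀ : ℝ} (hL : 1 ≤ L) (hT : T₁ < T) (hr : 0 < r) (hh : 0 < h)
    (hs : 0 < s₀) : ∃ ρ₀ : ℝ, 0 < ρ₀ ∧ ρ₀ ≤ 1 ∧ ρ₀ ≤ r ∧ ρ₀ ≤ h / 2 ∧ ρ₀ ≤ s₀ ∧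
      (L + 1) * ρ₀ ^ 2 < T - T₁ := by
  obtain ⟨q, hq⟩ : ∃ q : ℝ, q = (T - T₁) / (2 * (L + 1)) := ⟨_, rfl⟩
  have hq0 : 0 < q := by
    rw [hq]
    have : 0 < T - T₁ := by linarith
    positivity
  have hq1 : q * (2 * (L + 1)) = T - T₁ := by
    rw [hq]
    field_simp
  obtain ⟨ρ, hρ⟩ : ∃ ρ : ℝ, ρ = min (min 1 (min r (min (h / 2) s₀))) q := ⟨_, rfl⟩
  have a0 : 0 < ρ := by rw [hρ]; positivity
  have a1 : ρ ≤ min 1 (min r (min (h / 2) s₀)) := by rw [hρ]; exact min_le_left _ _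
  have a2 : ρ ≤ q := by rw [hρ]; exact min_le_right _ _
  have a3 : ρ ≤ 1 := a1.trans (min_le_left _ _)
  have a4 : ρ ≤ min r (min (h / 2) s₀) := a1.trans (min_le_right _ _)
  have a5 : ρ ≤ min (h / 2) s₀ := a4.trans (min_le_right _ _)
  refine ⟨ρ, a0, a3, a4.trans (min_le_left _ _), a5.trans (min_le_left _ _),
    a5.trans (min_le_right _ _), ?_⟩
  have a6 : ρ ^ 2 ≤ q := by nlinarith
  have : 0 < T - T₁ := by linarith
  nlinarith

/-- From the geometric decay to the power. -/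
lemma geo_pow {δ ρ₀ s : ℝ} (hδ : 0 < δ) (hδ1 : δ < 1) (hρ₀ : 0 < ρ₀) (hs : 0 < s)
    {k : ℕ} (hk : ρ₀ / √s < 4 ^ (k + 1)) :
    (1 - δ) ^ k ≤ (1 - δ)⁻¹ * ρ₀ ^ (-(2 * (-Real.log (1 - δ) / (2 * Real.log 4))))
      * s ^ (-Real.log (1 - δ) / (2 * Real.log 4)) := by
  have hq0 : 0 < 1 - δ := by linarith
  have hq1 : 1 - δ < 1 := by linarith
  have hl4 : 0 < Real.log 4 := Real.log_pos (by norm_num)
  have hlq : Real.log (1 - δ) < 0 := Real.log_neg hq0 hq1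
  obtain ⟨κ, hκ⟩ : ∃ κ : ℝ, κ = -Real.log (1 - δ) / (2 * Real.log 4) := ⟨_, rfl⟩
  have hκ0 : 0 < κ := by
    rw [hκ]
    exact div_pos (by linarith) (by positivity)
  rw [← hκ]
  have hρ : 0 < √s := Real.sqrt_pos.2 hs
  have e1 : (4 : ℝ) ^ (-(2 * κ)) = 1 - δ := by
    rw [Real.rpow_def_of_pos (by norm_num)]
    have : Real.log 4 * -(2 * κ) = Real.log (1 - δ) := by
      rw [hκ]
      field_simp
    rw [this, Real.exp_log hq0]
  have e2 : (1 - δ) ^ (k + 1) = ((4 : ℝ) ^ (k + 1)) ^ (-(2 * κ)) := by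
    rw [← e1, ← Real.rpow_natCast, ← Real.rpow_natCast, ← Real.rpow_mul (by norm_num),
      ← Real.rpow_mul (by norm_num)]
    congr 1
    ring
  have e3 : ((4 : ℝ) ^ (k + 1)) ^ (-(2 * κ)) ≤ (ρ₀ / √s) ^ (-(2 * κ)) :=
    Real.rpow_le_rpow_of_nonpos (by positivity) hk.le (by linarith)
  have e4 : (ρ₀ / √s) ^ (-(2 * κ)) = ρ₀ ^ (-(2 * κ)) * s ^ κ := by
    rw [Real.div_rpow hρ₀.le hρ.le, Real.rpow_neg hρ.le, div_inv_eq_mul]
    congr 1
    rw [Real.sqrt_eq_rpow, ← Real.rpow_mul hs.le]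
    congr 1
    ring
  have e5 : (1 - δ) ^ (k + 1) ≤ ρ₀ ^ (-(2 * κ)) * s ^ κ := by
    rw [e2, ← e4]
    exact e3
  rw [mul_assoc, inv_mul_eq_div, le_div_iff₀ hq0, ← pow_succ]
  exact e5

theorem dec (hAlg : StmAlg) (hFF : StmFF) (hEqC : Pool.Agent.Q67.AXI.StmEqC) (hCut : StmCut)
    (hOsc : StmOsc) : Pool.Agent.D0H28.OV.StmDec := by
  intro T E c R H r h T₁ C₀ K s₀ u p hA hr hrR hh hhH hT₁ hT₁T hK hs₀ hci hmor
  obtain ⟨L, δ, hL, hδ, hδ1, hosc⟩ := hOsc K hK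
  obtain ⟨Kc, χ, hKc, hχ⟩ := hCut 0 2 2 1 1 one_pos (by norm_num) one_pos (by norm_num)
  obtain ⟨ρ₀, p0, p1, p2, p3, p4, p5⟩ := first_scale hL hT₁T hr hh hs₀
  obtain ⟨A₀, hA₀⟩ : ∃ A₀ : ℝ, A₀ = |C₀| + 1 := ⟨_, rfl⟩
  have hA₀p : 0 < A₀ := by rw [hA₀]; positivity
  have hCA : C₀ ≤ A₀ := by
    rw [hA₀]
    linarith [le_abs_self C₀]
  have hq0 : 0 < 1 - δ := by linarith
  have hCyr : ∀ c' ρ : ℝ, |c' - c| ≤ h / 2 → 0 ≤ ρ → ρ ≤ ρ₀ → Cy c' ρ ρ ⊆ Cy c r h := by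
    intro c' ρ hc' hρ0 hρ x hx
    refine ⟨hx.1.trans (pow_le_pow_left₀ hρ0 (by linarith) 2), ?_⟩
    have h1 := abs_add_le (x 2 - c') (c' - c)
    rw [sub_add_sub_cancel] at h1
    linarith [hx.2]
  have key : ∀ k : ℕ, ∀ t : ℝ,
      T₁ + (L + 1) * ρ₀ ^ 2 - (L + 1) * (ρ₀ * (1 / 4) ^ k) ^ 2 ≤ t → t < T →
      ∀ c' : ℝ, |c' - c| ≤ h / 2 → ∀ x ∈ Cy c' (ρ₀ * (1 / 4) ^ k) (ρ₀ * (1 / 4) ^ k),
        |circ (u t) x| ≤ A₀ * (1 - δ) ^ k := by
    intro k
    induction k with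
    | zero =>
      intro t ht htT c' hc' x hx
      rw [pow_zero, mul_one] at ht hx
      rw [pow_zero, mul_one]
      exact (hci t ⟨by linarith, htT⟩ x (hCyr c' ρ₀ hc' p0.le le_rfl hx)).trans hCA
    | succ k ih =>
      intro t₀ ht₀ ht₀T c' hc' x hx
      obtain ⟨ρ, hρ⟩ : ∃ ρ : ℝ, ρ = ρ₀ * (1 / 4) ^ k := ⟨_, rfl⟩
      have hρ0 : 0 < ρ := by rw [hρ]; positivity
      have hρρ : ρ ≤ ρ₀ := by
        rw [hρ]
        have : (1 / 4 : ℝ) ^ k ≤ 1 := pow_le_one₀ (by norm_num) (by norm_num)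
        nlinarith
      have e0 : ρ₀ * (1 / 4) ^ (k + 1) = ρ / 4 := by
        rw [hρ, pow_succ]
        ring
      rw [e0] at ht₀ hx
      rw [← hρ] at ih
      obtain ⟨s, hs⟩ : ∃ s : ℝ, s = ρ / 2 := ⟨_, rfl⟩
      have hs0 : 0 < s := by rw [hs]; positivity
      have hs2 : s ^ 2 = ρ ^ 2 / 4 := by rw [hs]; ring
      have hA' : 0 < A₀ * (1 - δ) ^ k := by positivity
      have hρ2 : 0 < (L + 1) * ρ ^ 2 := by positivity
      have hρ2' : (L + 1) * ρ ^ 2 ≤ (L + 1) * ρ₀ ^ 2 :=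
        mul_le_mul_of_nonneg_left (pow_le_pow_left₀ hρ0.le hρρ 2) (by linarith)
      have hlow : ∀ τ ∈ Ioo (-(L + 1)) ((T - t₀) / s ^ 2),
          T₁ + (L + 1) * ρ₀ ^ 2 - (L + 1) * ρ ^ 2 ≤ t₀ + s ^ 2 * τ ∧ t₀ + s ^ 2 * τ < T := by
        intro τ hτ
        have h1 : s ^ 2 * (-(L + 1)) < s ^ 2 * τ := mul_lt_mul_of_pos_left hτ.1 (by positivity)
        have h2 : s ^ 2 * τ < s ^ 2 * ((T - t₀) / s ^ 2) :=
          mul_lt_mul_of_pos_left hτ.2 (by positivity)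
        rw [mul_div_cancel₀ _ (by positivity : s ^ 2 ≠ 0)] at h2
        constructor
        · rw [hs2] at h1 ⊢
          nlinarith
        · linarith
      have hI : ∀ τ ∈ Ioo (-(L + 1)) ((T - t₀) / s ^ 2), t₀ + s ^ 2 * τ ∈ Ico T₁ T := by
        intro τ hτ
        obtain ⟨h1, h2⟩ := hlow τ hτ
        exact ⟨by linarith, h2⟩
      have hsubs : Co c' s s ⊆ Cy c r h := by
        intro y hy
        exact hCyr c' s hc' hs0.le (by rw [hs]; linarith) ⟨hy.1.le, hy.2.le⟩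
      have hDr := mk_Dr (K := K) (A := A₀ * (1 - δ) ^ k) (s := s) (c' := c') (t₀ := t₀)
        (a := -(L + 1)) (b := (T - t₀) / s ^ 2) hAlg hFF hEqC hA hs0 hA' hχ.sm hχ.ax hχ.nn hχ.le
        (fun y hy => hχ.one y ⟨hy.1.le, hy.2.le⟩)
        (fun y hy => hχ.supp (subset_tsupport χ hy))
        (fun y hy => by
          have h1 := hsubs hy
          refine ⟨h1.1.trans_lt ?_, h1.2.trans_lt hhH⟩
          exact pow_lt_pow_left₀ hrR hr.le (by norm_num))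
        (fun τ hτ => ⟨hT₁.trans_le (hI τ hτ).1, (hI τ hτ).2⟩)
        (fun τ hτ y hy => by
          have h2s : 2 * s = ρ := by rw [hs]; ring
          rw [h2s] at hy
          exact ih _ (hlow τ hτ).1 (hlow τ hτ).2 c' hc' y hy)
        (fun τ hτ => hmor _ (hI τ hτ) c' s hs0 (by rw [hs]; linarith) hsubs)
      have hb0 : 0 < (T - t₀) / s ^ 2 := div_pos (by linarith) (by positivity)
      obtain ⟨y, hy⟩ : ∃ y : V, y = ![x 0 / s, x 1 / s, (x 2 - c') / s] := ⟨_, rfl⟩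
      have hay : aff c' s y = x := by
        rw [hy]
        funext i
        fin_cases i
        · show s * (x 0 / s) = x 0
          field_simp
        · show s * (x 1 / s) = x 1
          field_simp
        · show c' + s * ((x 2 - c') / s) = x 2
          field_simp
          ring
      have hsgy : sg x = s ^ 2 * sg y := by rw [← hay, sg_aff]
      have hyC : y ∈ Cy 0 (1 / 2) (1 / 2) := by
        refine ⟨?_, ?_⟩
        · have h1 := hx.1
          rw [hsgy, hs2] at h1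
          have : 0 < ρ ^ 2 := by positivity
          nlinarith
        · have h1 := hx.2
          have h2 : x 2 - c' = s * y 2 := by
            rw [← hay]
            show c' + s * y 2 - c' = s * y 2
            ring
          rw [h2, abs_mul, abs_of_pos hs0, hs] at h1
          rw [sub_zero]
          nlinarith
      have h1 := hosc _ _ _ _ hDr 0 ⟨by linarith, hb0⟩ (by linarith) y hyC
      have hχy : χ y = 1 := hχ.one y ⟨hyC.1.trans (by norm_num), hyC.2.trans (by norm_num)⟩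
      simp only [hχy, one_mul, mul_zero, add_zero, hay] at h1
      rw [abs_mul, abs_of_pos (inv_pos.2 hA'), inv_mul_le_iff₀ hA'] at h1
      calc |circ (u t₀) x| ≤ A₀ * (1 - δ) ^ k * (1 - δ) := h1
        _ = A₀ * (1 - δ) ^ (k + 1) := by ring
  have hl4 : 0 < Real.log 4 := Real.log_pos (by norm_num)
  have hlq : Real.log (1 - δ) < 0 := Real.log_neg hq0 (by linarith)
  obtain ⟨κ, hκ⟩ : ∃ κ : ℝ, κ = -Real.log (1 - δ) / (2 * Real.log 4) := ⟨_, rfl⟩
  have hκ0 : 0 < κ := by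
    rw [hκ]
    exact div_pos (by linarith) (by positivity)
  have hL1 : 0 < (L + 1) * ρ₀ ^ 2 := by positivity
  refine ⟨A₀ * ((1 - δ)⁻¹ * ρ₀ ^ (-(2 * κ))), κ, ρ₀ / 2, T₁ + (L + 1) * ρ₀ ^ 2, ?_, hκ0,
    by positivity, by linarith, by linarith, by linarith, fun t ht x hx => ?_⟩
  · have : 0 < ρ₀ ^ (-(2 * κ)) := Real.rpow_pos_of_pos p0 _
    positivity
  · rcases (sg_nonneg x).eq_or_lt with h0 | h0
    · have h3 : circ (u t) x = 0 := by
        have e : x 0 ^ 2 + x 1 ^ 2 = 0 := h0.symm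
        have e0 : x 0 = 0 := by nlinarith [sq_nonneg (x 0), sq_nonneg (x 1)]
        have e1 : x 1 = 0 := by nlinarith [sq_nonneg (x 0), sq_nonneg (x 1)]
        unfold circ
        rw [e0, e1]
        ring
      rw [h3, abs_zero, ← h0, Real.zero_rpow hκ0.ne', mul_zero]
    · have hsx : 0 < √(sg x) := Real.sqrt_pos.2 h0
      have hsx1 : √(sg x) ≤ ρ₀ / 2 := by
        rw [← Real.sqrt_sq (by positivity : 0 ≤ ρ₀ / 2)]
        exact Real.sqrt_le_sqrt hx.1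
      obtain ⟨k, hk1, hk2⟩ := exists_nat_pow_near (x := ρ₀ / √(sg x)) (y := (4 : ℝ))
        (by rw [le_div_iff₀ hsx]; linarith) (by norm_num)
      have hxk : x ∈ Cy (x 2) (ρ₀ * (1 / 4) ^ k) (ρ₀ * (1 / 4) ^ k) := by
        refine ⟨?_, ?_⟩
        · have h5 : √(sg x) ≤ ρ₀ * (1 / 4) ^ k := by
            rw [le_div_iff₀ hsx] at hk1
            rw [one_div, inv_pow, ← div_eq_mul_inv, le_div_iff₀ (by positivity)]
            linarith
          calc sg x = √(sg x) ^ 2 := (Real.sq_sqrt h0.le).symm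
            _ ≤ _ := pow_le_pow_left₀ hsx.le h5 2
        · rw [sub_self, abs_zero]
          positivity
      have h6 := key k t (by
        have : 0 ≤ (L + 1) * (ρ₀ * (1 / 4) ^ k) ^ 2 := by positivity
        linarith [ht.1]) ht.2 (x 2) (hx.2.trans (by linarith)) x hxk
      have h7 := geo_pow hδ hδ1 p0 h0 hk2
      rw [← hκ] at h7
      calc |circ (u t) x| ≤ A₀ * (1 - δ) ^ k := h6
        _ ≤ A₀ * ((1 - δ)⁻¹ * ρ₀ ^ (-(2 * κ)) * sg x ^ κ) :=
            mul_le_mul_of_nonneg_left h7 hA₀p.le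
        _ = _ := by ring

end Pool.Agent.D0H33.OV
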