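import Pool.Agent.D0H28.OV.Defs

/-!
Project OV (helper28): the oscillation lemma from the packages E and G, by helper33.
-/

set_option autoImplicit false

open MeasureTheory Set Metric Filter Topology
open scoped ContDiff
open H459R3.NS Pool.Agent.W268.NS Pool.Agent.Q67.VD

namespace Pool.Agent.D0H33.OV

open Pool.Agent.Q85.CC Pool.Agent.Q85.CL Pool.Agent.TH305.AX Pool.Agent.Q67.AXI
open Pool.Agent.D0H28.OV

lemma pd_ng (j : Fin 3) (g : V → ℝ) : pd j (fun y => -g y) = fun x => -pd j g x := by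
  funext x
  unfold pd
  rw [fderiv_fun_neg]
  rfl

lemma lap_ng (g : V → ℝ) (x : V) : lap (fun y => -g y) x = -lap g x := by
  unfold lap
  rw [← Finset.sum_neg_distrib]
  refine Finset.sum_congr rfl fun j _ => ?_
  rw [pd_ng, pd_ng]

lemma RR_ng (g : V → ℝ) (x : V) : RR (fun y => -g y) x = -RR g x := by
  unfold RR
  rw [pd_ng, pd_ng]
  ring

lemma Dr_neg {a b K : ℝ} {f F : ℝ → V → ℝ} (h : Dr a b K f F) :
    Dr a b K (fun t x => -f t x) F where
  smf := h.smf.neg
  smF := h.smF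
  axf := fun t ht θ x => by
    show -f t (rot θ x) = -f t x
    rw [h.axf t ht θ x]
  axF := h.axF
  ax0 := fun t ht x hx => by
    show -f t x = 0
    rw [h.ax0 t ht x hx, neg_zero]
  bd := fun t ht x => by
    rw [abs_neg]
    exact h.bd t ht x
  eq := fun t ht x hx hs => by
    have h1 := h.eq t ht x hx hs
    have h2 : deriv (fun s => -f s x) t = -deriv (fun s => f s x) t := deriv.fun_neg
    rw [h2, h1, lap_ng, RR_ng]
    unfold TT
    rw [RR_ng, pd_ng]
    ring
  mor := h.mor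

theorem osc (hDG : StmDG) (hLg : StmLg) : StmOsc := by
  intro K hK
  obtain ⟨ε₀, hε₀, hDG⟩ := hDG K hK
  obtain ⟨L, ε, hL, hε, hε2, hLg⟩ := hLg K ε₀ hK hε₀
  refine ⟨L + 2, ε / 2, by linarith, by positivity, by linarith, ?_⟩
  have key : ∀ (a b : ℝ) (f F : ℝ → V → ℝ), Dr a b K f F → ∀ t ∈ Ioo a b, a + (L + 2) ≤ t →
      ∀ x ∈ Cy 0 (1 / 2) (1 / 2), f t x ≤ 1 - ε / 2 := by
    intro a b f F hf t ht hat
    refine hDG a b t ε f F hf (by linarith) ht.2 hε hε2 fun s hs => ?_
    exact hLg a b f F hf s ⟨by linarith [hs.1], hs.2.trans_lt ht.2⟩ (by linarith [hs.1])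
  intro a b f F hf t ht hat x hx
  have h1 := key a b f F hf t ht hat x hx
  have h2 := key a b _ F (Dr_neg hf) t ht hat x hx
  rw [abs_le]
  constructor <;> linarith

end Pool.Agent.D0H33.OV
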