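import Pool.Agent.D0H33.OV.Dec

/-!
The decay of the circulation near the axis if the Morrey bound of the stream function holds only at
a sparse set of scales, with constants which may grow.
-/

set_option autoImplicit false

open MeasureTheory Set Metric Filter Topology
open scoped ContDiff
open H459R3.NS Pool.Agent.W268.NS Pool.Agent.Q67.VD

namespace Pool.Agent.D0H33.OV

open Pool.Agent.Q85.CC Pool.Agent.Q85.CL Pool.Agent.TH305.AX Pool.Agent.Q67.AXI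
open Pool.Agent.Q285.AXI (slice)
open Pool.Agent.D0H28.OV (FF TT Dr StmFF StmOsc)

/-- The decay of the circulation, the Morrey bound being assumed at the scales `2⁻ʲ`, `j ∈ G`. -/
def StmDecG : Prop := ∃ d : ℝ → ℝ, (∀ K, 0 < d K) ∧
  ∀ (T E c R H r h T₁ C₀ s₀ : ℝ) (u : ℝ → V → V) (p : ℝ → V → ℝ) (G : Set ℕ) (K : ℕ → ℝ),
  AxL T E c R H u p → 0 < r → r < R → 0 < h → h < H → 0 < T₁ → T₁ < T → (∀ j ∈ G, 0 ≤ K j) →
  0 < s₀ → (∀ t ∈ Ico T₁ T, ∀ x ∈ Cy c r h, |circ (u t) x| ≤ C₀) →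
  (∀ t ∈ Ico T₁ T, ∀ j ∈ G, (1 / 2 : ℝ) ^ j ≤ s₀ → ∀ c' : ℝ,
    Co c' ((1 / 2) ^ j) ((1 / 2) ^ j) ⊆ Cy c r h →
    ∫ x in Co c' ((1 / 2) ^ j) ((1 / 2) ^ j), sg x ^ 3 * FF (u t) x ^ 6
      ≤ K j * ((1 / 2) ^ j) ^ 3) →
  (∀ᶠ n : ℕ in atTop, Real.log n ≤ ∑ j ∈ Finset.range n, G.indicator (fun j => d (K j)) j) →
  ∃ C r' T₂ : ℝ, 0 < C ∧ 0 < r' ∧ r' < 1 ∧ T₁ ≤ T₂ ∧ T₂ < T ∧ ∀ t ∈ Ico T₂ T,
    ∀ x ∈ Cy c r' r', 0 < sg x → |circ (u t) x| ≤ C * Real.log (1 / sg x) ^ (-2 : ℝ)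

/-- The sequence of the bounds. -/
noncomputable def bb (q : ℕ → ℝ) (A₀ : ℝ) : ℕ → ℝ
  | 0 => A₀
  | 1 => A₀
  | n + 2 => min (bb q A₀ (n + 1)) (q (n + 1) * bb q A₀ n)

lemma bb_succ (q : ℕ → ℝ) (A₀ : ℝ) (n : ℕ) :
    bb q A₀ (n + 2) = min (bb q A₀ (n + 1)) (q (n + 1) * bb q A₀ n) := rfl

lemma bb_pos {q : ℕ → ℝ} {A₀ : ℝ} (hq : ∀ n, 0 < q n) (hA : 0 < A₀) : ∀ n, 0 < bb q A₀ n
  | 0 => hA
  | 1 => hA
  | n + 2 => by
    rw [bb_succ]
    exact lt_min (bb_pos hq hA (n + 1)) (mul_pos (hq _) (bb_pos hq hA n))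

lemma bb_anti {q : ℕ → ℝ} {A₀ : ℝ} (n : ℕ) : bb q A₀ (n + 1) ≤ bb q A₀ n := by
  rcases n with _ | n
  · exact le_rfl
  · exact min_le_left _ _

lemma bb_mul {q : ℕ → ℝ} {A₀ : ℝ} (hq : ∀ n, 0 < q n) (hA : 0 < A₀) (n : ℕ) :
    bb q A₀ (n + 1) * bb q A₀ n ≤ A₀ ^ 2 * ∏ i ∈ Finset.range n, q (i + 1) := by
  induction n with
  | zero =>
    rw [Finset.prod_range_zero]
    show A₀ * A₀ ≤ A₀ ^ 2 * 1
    nlinarith
  | succ n ih =>
    rw [Finset.prod_range_succ]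
    have h1 := bb_pos hq hA (n + 1)
    have h2 : bb q A₀ (n + 2) ≤ q (n + 1) * bb q A₀ n := min_le_right _ _
    have h3 := hq (n + 1)
    calc bb q A₀ (n + 1 + 1) * bb q A₀ (n + 1)
        ≤ (q (n + 1) * bb q A₀ n) * bb q A₀ (n + 1) := mul_le_mul_of_nonneg_right h2 h1.le
      _ = q (n + 1) * (bb q A₀ (n + 1) * bb q A₀ n) := by ring
      _ ≤ q (n + 1) * (A₀ ^ 2 * ∏ i ∈ Finset.range n, q (i + 1)) :=
          mul_le_mul_of_nonneg_left ih h3.le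
      _ = _ := by ring

lemma bb_le {q : ℕ → ℝ} {A₀ : ℝ} (hq : ∀ n, 0 < q n) (hA : 0 < A₀) (n : ℕ) :
    bb q A₀ (n + 1) ^ 2 ≤ A₀ ^ 2 * ∏ i ∈ Finset.range n, q (i + 1) := by
  have h1 := bb_pos hq hA (n + 1)
  have h2 := bb_anti (q := q) (A₀ := A₀) n
  have h3 := bb_mul hq hA n
  nlinarith

/-- One application of the oscillation lemma. -/
lemma osc_step (hAlg : StmAlg) (hFF : StmFF) (hEqC : Pool.Agent.Q67.AXI.StmEqC)
    {T E c R H L δ K A s c' t₀ Kc : ℝ} {u : ℝ → V → V} {p : ℝ → V → ℝ} {χ : V → ℝ} (hL : 1 ≤ L)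
    (hosc : ∀ (a b : ℝ) (f F : ℝ → V → ℝ), Dr a b K f F → ∀ t ∈ Ioo a b, a + L ≤ t →
      ∀ x ∈ Cy 0 (1 / 2) (1 / 2), |f t x| ≤ 1 - δ)
    (hχ : Cut 0 2 2 1 1 Kc χ) (hA : AxL T E c R H u p) (hs : 0 < s) (hA' : 0 < A)
    (hsub : Co c' s s ⊆ Co c R H) (ht₀ : t₀ < T) (hlag : 0 ≤ t₀ - (L + 1) * s ^ 2)
    (hbd : ∀ t, t₀ - (L + 1) * s ^ 2 < t → t < T → ∀ x ∈ Cy c' (2 * s) (2 * s),
      |circ (u t) x| ≤ A)
    (hmor : ∀ t, t₀ - (L + 1) * s ^ 2 < t → t < T →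
      ∫ x in Co c' s s, sg x ^ 3 * FF (u t) x ^ 6 ≤ K * s ^ 3) :
    ∀ x ∈ Cy c' (s / 2) (s / 2), |circ (u t₀) x| ≤ A * (1 - δ) := by
  intro x hx
  have hlow : ∀ τ ∈ Ioo (-(L + 1)) ((T - t₀) / s ^ 2),
      t₀ - (L + 1) * s ^ 2 < t₀ + s ^ 2 * τ ∧ t₀ + s ^ 2 * τ < T := by
    intro τ hτ
    have h1 : s ^ 2 * (-(L + 1)) < s ^ 2 * τ := mul_lt_mul_of_pos_left hτ.1 (by positivity)
    have h2 : s ^ 2 * τ < s ^ 2 * ((T - t₀) / s ^ 2) :=
      mul_lt_mul_of_pos_left hτ.2 (by positivity)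
    rw [mul_div_cancel₀ _ (by positivity : s ^ 2 ≠ 0)] at h2
    constructor <;> linarith
  have hDr := mk_Dr (K := K) (A := A) (s := s) (c' := c') (t₀ := t₀)
    (a := -(L + 1)) (b := (T - t₀) / s ^ 2) hAlg hFF hEqC hA hs hA' hχ.sm hχ.ax hχ.nn hχ.le
    (fun y hy => hχ.one y ⟨hy.1.le, hy.2.le⟩)
    (fun y hy => hχ.supp (subset_tsupport χ hy)) hsub
    (fun τ hτ => ⟨hlag.trans_lt (hlow τ hτ).1, (hlow τ hτ).2⟩)
    (fun τ hτ y hy => hbd _ (hlow τ hτ).1 (hlow τ hτ).2 y hy)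
    (fun τ hτ => hmor _ (hlow τ hτ).1 (hlow τ hτ).2)
  have hb0 : 0 < (T - t₀) / s ^ 2 := div_pos (by linarith) (by positivity)
  obtain ⟨y, hy⟩ : ∃ y : V, y = ![x 0 / s, x 1 / s, (x 2 - c') / s] := ⟨_, rfl⟩
  have hay : aff c' s y = x := by
    rw [hy]
    funext i
    fin_cases i
    · show s * (x 0 / s) = x 0
      field_simp
    · show s * (x 1 / s) = x 1
      field_simp
    · show c' + s * ((x 2 - c') / s) = x 2
      field_simp
      ring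
  have hsgy : sg x = s ^ 2 * sg y := by rw [← hay, sg_aff]
  have hyC : y ∈ Cy 0 (1 / 2) (1 / 2) := by
    refine ⟨?_, ?_⟩
    · have h1 := hx.1
      rw [hsgy] at h1
      have : 0 < s ^ 2 := by positivity
      nlinarith
    · have h1 := hx.2
      have h2 : x 2 - c' = s * y 2 := by
        rw [← hay]
        show c' + s * y 2 - c' = s * y 2
        ring
      rw [h2, abs_mul, abs_of_pos hs] at h1
      rw [sub_zero]
      nlinarith
  have h1 := hosc _ _ _ _ hDr 0 ⟨by linarith, hb0⟩ (by linarith) y hyC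
  have hχy : χ y = 1 := hχ.one y ⟨hyC.1.trans (by norm_num), hyC.2.trans (by norm_num)⟩
  simp only [hχy, one_mul, mul_zero, add_zero, hay] at h1
  rwa [abs_mul, abs_of_pos (inv_pos.2 hA'), inv_mul_le_iff₀ hA'] at h1

theorem decG (hAlg : StmAlg) (hFF : StmFF) (hEqC : Pool.Agent.Q67.AXI.StmEqC) (hCut : StmCut)
    (hOsc : StmOsc) : StmDecG := by
  have hO : ∀ K : ℝ, ∃ L δ : ℝ, 0 ≤ K → 1 ≤ L ∧ 0 < δ ∧ δ < 1 ∧
      ∀ (a b : ℝ) (f F : ℝ → V → ℝ), Dr a b K f F → ∀ t ∈ Ioo a b, a + L ≤ t →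
        ∀ x ∈ Cy 0 (1 / 2) (1 / 2), |f t x| ≤ 1 - δ := by
    intro K
    by_cases hK : 0 ≤ K
    · obtain ⟨L, δ, h1⟩ := hOsc K hK
      exact ⟨L, δ, fun _ => h1⟩
    · exact ⟨1, 1 / 2, fun h => absurd h hK⟩
  choose L δ hLδ using hO
  obtain ⟨d, hd⟩ : ∃ d : ℝ → ℝ, d = fun K => if 0 ≤ K then min (δ K / 4) (1 / (L K + 1)) else 1 :=
    ⟨_, rfl⟩
  have hd0 : ∀ K, 0 < d K := by
    intro K
    rw [hd]
    simp only
    split_ifs with h
    · obtain ⟨h1, h2, -, -⟩ := hLδ K h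
      have : 0 < L K + 1 := by linarith
      exact lt_min (by positivity) (by positivity)
    · exact one_pos
  have hd1 : ∀ K, 0 ≤ K → d K ≤ δ K / 4 ∧ d K ≤ 1 / (L K + 1) := by
    intro K h
    rw [hd]
    simp only [h, if_true]
    exact ⟨min_le_left _ _, min_le_right _ _⟩
  refine ⟨d, hd0, ?_⟩
  intro T E c R H r h T₁ C₀ s₀ u p G K hA hr hrR hh hhH hT₁ hT₁T hK hs₀ hci hmor hG
  obtain ⟨Kc, χ, hKc, hχ⟩ := hCut 0 2 2 1 1 one_pos (by norm_num) one_pos (by norm_num)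
  obtain ⟨ρ₀, hρ₀⟩ : ∃ ρ₀ : ℝ, ρ₀ = min (min 1 r) (min (min (h / 2) s₀) (T - T₁)) := ⟨_, rfl⟩
  have hTT : 0 < T - T₁ := by linarith
  have hρ₀0 : 0 < ρ₀ := by rw [hρ₀]; positivity
  obtain ⟨n₀, hn₀, hn₁⟩ : ∃ n₀ : ℕ, (1 / 2 : ℝ) ^ n₀ < ρ₀ ∧ ∀ n ≥ n₀, Real.log n ≤
      ∑ j ∈ Finset.range n, G.indicator (fun j => d (K j)) j := by
    obtain ⟨N, hN⟩ := eventually_atTop.1 hG
    have h1 : ∀ᶠ n : ℕ in atTop, (1 / 2 : ℝ) ^ n < ρ₀ :=
      (tendsto_pow_atTop_nhds_zero_of_lt_one (by norm_num) (by norm_num)).eventually_lt_const hρ₀0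
    obtain ⟨n₀, h2, h3⟩ := (h1.and (eventually_ge_atTop N)).exists
    exact ⟨n₀, h2, fun n hn => hN n (h3.trans hn)⟩
  -- the scales
  obtain ⟨s, hs⟩ : ∃ s : ℕ → ℝ, s = fun n => (1 / 2 : ℝ) ^ (n₀ + n) := ⟨_, rfl⟩
  have hs0 : ∀ n, 0 < s n := fun n => by rw [hs]; positivity
  have hs1 : ∀ n, s (n + 1) = s n / 2 := fun n => by
    rw [hs]
    show (1 / 2 : ℝ) ^ (n₀ + (n + 1)) = (1 / 2) ^ (n₀ + n) / 2
    rw [← add_assoc, pow_succ]
    ring
  have hsρ : ∀ n, s n < ρ₀ := by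
    intro n
    induction n with
    | zero =>
      rw [hs]
      exact hn₀
    | succ n ih =>
      rw [hs1]
      have := hs0 n
      linarith
  have e1 : ρ₀ ≤ 1 := by
    rw [hρ₀]
    exact (min_le_left _ _).trans (min_le_left _ _)
  have e2 : ρ₀ ≤ r := by
    rw [hρ₀]
    exact (min_le_left _ _).trans (min_le_right _ _)
  have e3 : ρ₀ ≤ h / 2 := by
    rw [hρ₀]
    exact ((min_le_right _ _).trans (min_le_left _ _)).trans (min_le_left _ _)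
  have e4 : ρ₀ ≤ s₀ := by
    rw [hρ₀]
    exact ((min_le_right _ _).trans (min_le_left _ _)).trans (min_le_right _ _)
  have e5 : ρ₀ ≤ T - T₁ := by
    rw [hρ₀]
    exact (min_le_right _ _).trans (min_le_right _ _)
  obtain ⟨A₀, hA₀⟩ : ∃ A₀ : ℝ, A₀ = |C₀| + 1 := ⟨_, rfl⟩
  have hA₀p : 0 < A₀ := by rw [hA₀]; positivity
  have hCA : C₀ ≤ A₀ := by
    rw [hA₀]
    linarith [le_abs_self C₀]
  -- the good scales
  obtain ⟨G', hG'⟩ : ∃ G' : Set ℕ, G' = {j | j ∈ G ∧ L (K j) + 1 ≤ 2 ^ j} := ⟨_, rfl⟩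
  obtain ⟨q, hq⟩ : ∃ q : ℕ → ℝ, q = fun i => 1 - G'.indicator (fun j => δ (K j)) (n₀ + i) :=
    ⟨_, rfl⟩
  have hqG : ∀ i, n₀ + i ∈ G' → q i = 1 - δ (K (n₀ + i)) := by
    intro i hi
    rw [hq]
    show 1 - G'.indicator (fun j => δ (K j)) (n₀ + i) = _
    rw [indicator_of_mem hi]
  have hqN : ∀ i, n₀ + i ∉ G' → q i = 1 := by
    intro i hi
    rw [hq]
    show 1 - G'.indicator (fun j => δ (K j)) (n₀ + i) = _
    rw [indicator_of_notMem hi, sub_zero]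
  have hGK : ∀ j ∈ G', j ∈ G ∧ 0 ≤ K j ∧ L (K j) + 1 ≤ 2 ^ j := by
    intro j hj
    rw [hG'] at hj
    exact ⟨hj.1, hK j hj.1, hj.2⟩
  have hq0 : ∀ i, 0 < q i := by
    intro i
    by_cases hi : n₀ + i ∈ G'
    · rw [hqG i hi]
      obtain ⟨-, -, h3, -⟩ := hLδ _ (hGK _ hi).2.1
      linarith
    · rw [hqN i hi]
      exact one_pos
  have hCyr : ∀ c' ρ : ℝ, |c' - c| ≤ h / 2 → 0 ≤ ρ → ρ ≤ ρ₀ → Cy c' ρ ρ ⊆ Cy c r h := by
    intro c' ρ hc' hρ0 hρ x hx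
    refine ⟨hx.1.trans (pow_le_pow_left₀ hρ0 (by linarith) 2), ?_⟩
    have h1 := abs_add_le (x 2 - c') (c' - c)
    rw [sub_add_sub_cancel] at h1
    linarith [hx.2]
  have hCyi : ∀ (c' : ℝ) (n : ℕ), Cy c' (s (n + 1)) (s (n + 1)) ⊆ Cy c' (s n) (s n) := by
    intro c' n x hx
    have h1 := hs1 n
    have h2 := hs0 n
    refine ⟨hx.1.trans (pow_le_pow_left₀ (hs0 _).le (by linarith) 2), hx.2.trans (by linarith)⟩
  have key : ∀ n : ℕ,
      (∀ t : ℝ, T₁ + (s 0 - s n) ≤ t → t < T → ∀ c' : ℝ, |c' - c| ≤ h / 2 →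
        ∀ x ∈ Cy c' (s n) (s n), |circ (u t) x| ≤ bb q A₀ n) ∧
      ∀ t : ℝ, T₁ + (s 0 - s (n + 1)) ≤ t → t < T → ∀ c' : ℝ, |c' - c| ≤ h / 2 →
        ∀ x ∈ Cy c' (s (n + 1)) (s (n + 1)), |circ (u t) x| ≤ bb q A₀ (n + 1) := by
    intro n
    induction n with
    | zero =>
      refine ⟨fun t ht htT c' hc' x hx => ?_, fun t ht htT c' hc' x hx => ?_⟩
      · show |circ (u t) x| ≤ A₀
        rw [sub_self, add_zero] at ht
        exact (hci t ⟨ht, htT⟩ x (hCyr c' _ hc' (hs0 0).le (hsρ 0).le hx)).trans hCA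
      · show |circ (u t) x| ≤ A₀
        have h1 := hs1 0
        have h2 := hs0 0
        exact (hci t ⟨by linarith, htT⟩ x (hCyr c' _ hc' (hs0 1).le (hsρ 1).le hx)).trans hCA
    | succ n ih =>
      obtain ⟨ih1, ih2⟩ := ih
      refine ⟨ih2, fun t₀ ht htT c' hc' x hx => ?_⟩
      have a1 := hs1 n
      have a2 := hs1 (n + 1)
      have a3 := hs0 n
      have a4 : s n ≤ s 0 := by
        rw [hs]
        exact pow_le_pow_of_le_one (by norm_num) (by norm_num) (by omega)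
      rw [bb_succ]
      refine le_min (ih2 t₀ (by linarith) htT c' hc' x (hCyi c' (n + 1) hx)) ?_
      by_cases hj : n₀ + (n + 1) ∈ G'
      · rw [hqG _ hj]
        obtain ⟨b1, b2, b3⟩ := hGK _ hj
        obtain ⟨c1, c2, c3, c4⟩ := hLδ _ b2
        have hsj : s (n + 1) = (1 / 2 : ℝ) ^ (n₀ + (n + 1)) := by rw [hs]
        have hlag : (L (K (n₀ + (n + 1))) + 1) * s (n + 1) ^ 2 ≤ s (n + 1) := by
          have h1 : (2 : ℝ) ^ (n₀ + (n + 1)) * s (n + 1) = 1 := by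
            rw [hsj, ← mul_pow]
            norm_num
          calc (L (K (n₀ + (n + 1))) + 1) * s (n + 1) ^ 2
              ≤ 2 ^ (n₀ + (n + 1)) * s (n + 1) ^ 2 :=
                mul_le_mul_of_nonneg_right b3 (sq_nonneg _)
            _ = (2 ^ (n₀ + (n + 1)) * s (n + 1)) * s (n + 1) := by ring
            _ = s (n + 1) := by rw [h1, one_mul]
        have hsubs : Co c' (s (n + 1)) (s (n + 1)) ⊆ Cy c r h := by
          intro y hy
          exact hCyr c' _ hc' (hs0 _).le (hsρ _).le ⟨hy.1.le, hy.2.le⟩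
        have h9 := osc_step (A := bb q A₀ n) hAlg hFF hEqC c1 c4 hχ hA (hs0 (n + 1))
          (bb_pos hq0 hA₀p n)
          (fun y hy => by
            have h1 := hsubs hy
            refine ⟨h1.1.trans_lt ?_, h1.2.trans_lt hhH⟩
            exact pow_lt_pow_left₀ hrR hr.le (by norm_num)) htT (by linarith)
          (fun t' h1 h2 y hy => by
            have e : 2 * s (n + 1) = s n := by linarith
            rw [e] at hy
            exact ih1 t' (by linarith) h2 c' hc' y hy)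
          (fun t' h1 h2 => by
            have h3 := hmor t' ⟨by linarith, h2⟩ _ b1 (by
              rw [← hsj]
              exact (hsρ _).le.trans e4) c' (by
              rw [← hsj]
              exact hsubs)
            rw [← hsj] at h3
            exact h3) x (by
          rw [a2] at hx
          exact hx)
        rw [mul_comm]
        exact h9
      · rw [hqN _ hj, one_mul]
        exact ih1 t₀ (by linarith) htT c' hc' x (hCyi c' n (hCyi c' (n + 1) hx))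
  -- the sums
  obtain ⟨g, hg⟩ : ∃ g : ℕ → ℝ, g = G'.indicator (fun j => δ (K j)) := ⟨_, rfl⟩
  have hqg : ∀ i, q i = 1 - g (n₀ + i) := fun i => by rw [hq, hg]
  have hg1 : ∀ j, g j ≤ 1 := by
    intro j
    rw [hg]
    by_cases hj : j ∈ G'
    · rw [indicator_of_mem hj]
      exact (hLδ _ (hGK _ hj).2.1).2.2.1.le
    · rw [indicator_of_notMem hj]
      exact zero_le_one
  have hg0 : ∀ j, 0 ≤ g j := by
    intro j
    rw [hg]
    by_cases hj : j ∈ G'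
    · rw [indicator_of_mem hj]
      exact (hLδ _ (hGK _ hj).2.1).2.1.le
    · rw [indicator_of_notMem hj]
  have hdg : ∀ j, G.indicator (fun j => d (K j)) j ≤ g j / 4 + (1 / 2) ^ j := by
    intro j
    have h0 : (0 : ℝ) < (1 / 2) ^ j := by positivity
    by_cases hjG : j ∈ G
    · rw [indicator_of_mem hjG]
      obtain ⟨h1, h2⟩ := hd1 _ (hK j hjG)
      by_cases hj : L (K j) + 1 ≤ 2 ^ j
      · have h3 : g j = δ (K j) := by
          rw [hg, indicator_of_mem]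
          rw [hG']
          exact ⟨hjG, hj⟩
        rw [h3]
        linarith
      · have h3 : 1 / (L (K j) + 1) ≤ (1 / 2) ^ j := by
          rw [one_div_pow]
          exact one_div_le_one_div_of_le (by positivity) (not_le.1 hj).le
        have := hg0 j
        linarith
    · rw [indicator_of_notMem hjG]
      have := hg0 j
      linarith
  have hsum : ∀ k : ℕ, 4 * Real.log ((n₀ + 1 + k : ℕ) : ℝ) - (n₀ + 9) ≤
      ∑ i ∈ Finset.range k, g (n₀ + 1 + i) := by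
    intro k
    have h1 := hn₁ (n₀ + 1 + k) (by omega)
    have h2 : ∑ j ∈ Finset.range (n₀ + 1 + k), G.indicator (fun j => d (K j)) j ≤
        ∑ j ∈ Finset.range (n₀ + 1 + k), (g j / 4 + (1 / 2) ^ j) :=
      Finset.sum_le_sum fun j _ => hdg j
    have h3 := sum_geometric_two_le (n₀ + 1 + k)
    have h4 : ∑ j ∈ Finset.range (n₀ + 1), g j ≤ ∑ j ∈ Finset.range (n₀ + 1), (1 : ℝ) :=
      Finset.sum_le_sum fun j _ => hg1 j
    rw [Finset.sum_const, Finset.card_range, nsmul_eq_mul, mul_one] at h4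
    rw [Finset.sum_add_distrib, ← Finset.sum_div] at h2
    rw [Finset.sum_range_add g] at h2
    push_cast at h4
    linarith
  have hprod : ∀ k : ℕ, ∏ i ∈ Finset.range k, q (i + 1) ≤
      Real.exp (n₀ + 9) * (((n₀ + 1 + k : ℕ) : ℝ) ^ 4)⁻¹ := by
    intro k
    have hN : (0 : ℝ) < ((n₀ + 1 + k : ℕ) : ℝ) := by positivity
    have h1 : ∏ i ∈ Finset.range k, q (i + 1) ≤
        ∏ i ∈ Finset.range k, Real.exp (-g (n₀ + 1 + i)) := by
      refine Finset.prod_le_prod (fun i _ => (hq0 _).le) fun i _ => ?_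
      have e : n₀ + (i + 1) = n₀ + 1 + i := by omega
      rw [hqg, e]
      have := Real.add_one_le_exp (-g (n₀ + 1 + i))
      linarith
    rw [← Real.exp_sum, Finset.sum_neg_distrib] at h1
    refine h1.trans ?_
    have h2 : Real.exp (n₀ + 9) * (((n₀ + 1 + k : ℕ) : ℝ) ^ 4)⁻¹ =
        Real.exp (n₀ + 9 - 4 * Real.log ((n₀ + 1 + k : ℕ) : ℝ)) := by
      rw [Real.exp_sub, div_eq_mul_inv]
      congr 2
      rw [← Real.log_rpow hN, Real.exp_log (by positivity)]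
      norm_num
    rw [h2]
    refine Real.exp_le_exp.2 ?_
    have := hsum k
    linarith
  obtain ⟨C₁, hC₁⟩ : ∃ C₁ : ℝ, C₁ = A₀ * Real.exp ((n₀ + 9) / 2) := ⟨_, rfl⟩
  have hC₁0 : 0 < C₁ := by rw [hC₁]; positivity
  have hbb : ∀ k : ℕ, bb q A₀ (k + 1) ≤ C₁ * (((n₀ + 1 + k : ℕ) : ℝ) ^ 2)⁻¹ := by
    intro k
    have hN : (0 : ℝ) < ((n₀ + 1 + k : ℕ) : ℝ) := by positivity
    refine le_of_sq_le_sq ?_ (by positivity)
    have h1 := bb_le hq0 hA₀p k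
    have h2 := mul_le_mul_of_nonneg_left (hprod k) (sq_nonneg A₀)
    refine (h1.trans h2).trans (le_of_eq ?_)
    rw [hC₁, mul_pow, mul_pow, ← Real.exp_nat_mul]
    have e : ((2 : ℕ) : ℝ) * (((n₀ : ℝ) + 9) / 2) = n₀ + 9 := by
      push_cast
      ring
    rw [e, inv_pow, ← pow_mul]
    ring
  have g1 := hs1 0
  have g2 := hs0 0
  have g3 := hsρ 0
  refine ⟨16 * C₁, s 1, T₁ + s 0, by positivity, hs0 1, by linarith, by linarith, by linarith,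
    fun t ht x hx h0 => ?_⟩
  have hsx : 0 < √(sg x) := Real.sqrt_pos.2 h0
  have hsx1 : √(sg x) ≤ s 1 := by
    rw [← Real.sqrt_sq (hs0 1).le]
    exact Real.sqrt_le_sqrt hx.1
  obtain ⟨k, hk1, hk2⟩ := exists_nat_pow_near (x := s 1 / √(sg x)) (y := (2 : ℝ))
    (by rw [le_div_iff₀ hsx]; linarith) (by norm_num)
  have hsk : ∀ k : ℕ, s 1 / 2 ^ k = s (k + 1) := by
    intro k
    rw [hs]
    show (1 / 2 : ℝ) ^ (n₀ + 1) / 2 ^ k = (1 / 2) ^ (n₀ + (k + 1))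
    rw [show n₀ + (k + 1) = n₀ + 1 + k by omega, pow_add _ (n₀ + 1) k, div_eq_mul_inv]
    congr 1
    rw [one_div, inv_pow]
  have hx1 : √(sg x) ≤ s (k + 1) := by
    rw [← hsk, le_div_iff₀ (by positivity), mul_comm]
    rwa [le_div_iff₀ hsx] at hk1
  have hx2 : s (k + 1 + 1) < √(sg x) := by
    rw [← hsk, div_lt_iff₀ (by positivity), mul_comm]
    rwa [div_lt_iff₀ hsx] at hk2
  have hxk : x ∈ Cy (x 2) (s (k + 1)) (s (k + 1)) := by
    refine ⟨?_, ?_⟩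
    · calc sg x = √(sg x) ^ 2 := (Real.sq_sqrt h0.le).symm
        _ ≤ _ := pow_le_pow_left₀ hsx.le hx1 2
    · rw [sub_self, abs_zero]
      exact (hs0 _).le
  have h6 := (key (k + 1)).1 t (by
    have := hs0 (k + 1)
    linarith [ht.1]) ht.2 (x 2) (hx.2.trans (by linarith)) x hxk
  have h7 := h6.trans (hbb k)
  refine h7.trans ?_
  have hN : (1 : ℝ) ≤ ((n₀ + 1 + k : ℕ) : ℝ) := by
    have : 1 ≤ n₀ + 1 + k := by omega
    exact_mod_cast this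
  obtain ⟨N, hNe⟩ : ∃ N : ℝ, N = ((n₀ + 1 + k : ℕ) : ℝ) := ⟨_, rfl⟩
  rw [← hNe] at hN ⊢
  have hsg1 : sg x < 1 := by
    have h8 : √(sg x) < 1 := by linarith
    rw [← Real.sq_sqrt h0.le]
    nlinarith
  have hl : 0 < Real.log (1 / sg x) :=
    Real.log_pos (by rw [one_div]; exact (one_lt_inv₀ h0).2 hsg1)
  have hl2 : Real.log (1 / sg x) ≤ 4 * N := by
    have h8 : s (k + 1 + 1) ^ 2 ≤ sg x := by
      rw [← Real.sq_sqrt h0.le]
      exact pow_le_pow_left₀ (hs0 _).le hx2.le 2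
    have h9 : s (k + 1 + 1) ^ 2 = (1 / 2) ^ (2 * (n₀ + 1 + k + 1)) := by
      rw [hs]
      show ((1 / 2 : ℝ) ^ (n₀ + (k + 1 + 1))) ^ 2 = _
      rw [← pow_mul]
      congr 1
      omega
    have h10 : Real.log (1 / sg x) ≤ Real.log (1 / (1 / 2) ^ (2 * (n₀ + 1 + k + 1))) := by
      refine Real.log_le_log (by positivity) ?_
      rw [← h9]
      exact one_div_le_one_div_of_le (pow_pos (hs0 _) 2) h8
    have h11 : Real.log (1 / (1 / 2) ^ (2 * (n₀ + 1 + k + 1))) = 2 * (N + 1) * Real.log 2 := by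
      rw [one_div, ← inv_pow, Real.log_pow, hNe]
      push_cast
      norm_num
    have h12 : Real.log 2 ≤ 1 := by
      have := Real.log_two_lt_d9
      linarith
    rw [h11] at h10
    nlinarith
  have e9 : Real.log (1 / sg x) ^ (-2 : ℝ) = (Real.log (1 / sg x) ^ 2)⁻¹ := by
    rw [Real.rpow_neg hl.le]
    norm_num
  rw [e9]
  have h13 : Real.log (1 / sg x) ^ 2 ≤ (4 * N) ^ 2 := pow_le_pow_left₀ hl.le hl2 2
  have h14 : ((4 * N) ^ 2)⁻¹ ≤ (Real.log (1 / sg x) ^ 2)⁻¹ :=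
    inv_anti₀ (by positivity) h13
  calc C₁ * (N ^ 2)⁻¹ = 16 * C₁ * ((4 * N) ^ 2)⁻¹ := by
        rw [mul_pow, mul_inv]
        ring
    _ ≤ 16 * C₁ * (Real.log (1 / sg x) ^ 2)⁻¹ := mul_le_mul_of_nonneg_left h14 (by positivity)

end Pool.Agent.D0H33.OV
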